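import Pool.Agent.Helper93.HZ.L2

/-!
# MP_64298a_al, module L2: the `ℓ²` graph lemma from the rank formula
-/

set_option autoImplicit false

open MulAction Pointwise

namespace Pool.Agent.Helper93.HZ

/-! ### square summable functions -/

theorem l2_mem {Y : Type} {b : Y → ℝ} (hb : Summable (fun y => b y ^ 2)) :
    Memℓp (E := fun _ : Y => ℝ) b 2 := by
  apply memℓp_gen
  simpa using hb

theorem l2_sum {Y : Type} (f : HS Y) : Summable (fun y => f y ^ 2) := by
  have h := lp.memℓp f
  rw [memℓp_gen_iff (by norm_num)] at h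
  simpa using h

theorem l2_norm {Y : Type} (f : HS Y) : ‖f‖ ^ 2 = ∑' y, f y ^ 2 := by
  have h := lp.norm_rpow_eq_tsum (p := 2) (by norm_num) f
  simpa using h

theorem l2_inner {Y : Type} (f g : HS Y) : inner ℝ f g = ∑' y, f y * g y := by
  rw [lp.inner_eq_tsum]
  refine tsum_congr (fun y => ?_)
  simp [mul_comm]

/-- a bounded operator from a linear map on functions -/
theorem l2_op {X Y : Type} (L : HS X →ₗ[ℝ] (Y → ℝ)) (C : ℝ)
    (hs : ∀ f, Summable (fun y => L f y ^ 2)) (hC : ∀ f : HS X, ∑' y, L f y ^ 2 ≤ C * ‖f‖ ^ 2) :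
    ∃ T : HS X →L[ℝ] HS Y, ∀ f y, T f y = L f y := by
  let M : HS X →ₗ[ℝ] HS Y :=
    { toFun := fun f => ⟨L f, l2_mem (hs f)⟩
      map_add' := fun f g => by
        ext y
        show L (f + g) y = L f y + L g y
        rw [map_add]; rfl
      map_smul' := fun c f => by
        ext y
        show L (c • f) y = c * L f y
        rw [map_smul]; rfl }
  have hM : ∀ f y, M f y = L f y := fun _ _ => rfl
  refine ⟨M.mkContinuous (Real.sqrt (max C 0)) (fun f => ?_), fun f y => hM f y⟩
  have h1 : ‖M f‖ ^ 2 ≤ (Real.sqrt (max C 0) * ‖f‖) ^ 2 := by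
    rw [l2_norm, mul_pow, Real.sq_sqrt (le_max_right C 0)]
    simp only [hM]
    exact (hC f).trans (mul_le_mul_of_nonneg_right (le_max_left C 0) (sq_nonneg _))
  exact (pow_le_pow_iff_left₀ (norm_nonneg _) (by positivity) two_ne_zero).1 h1

/-- pull back of a square summable function by a map with fibres of bounded size -/
theorem l2_pull {X Y ι : Type} [Finite ι] (κ : Y → ι) (σ : Y → Option X)
    (hinj : ∀ y y' x, κ y = κ y' → σ y = some x → σ y' = some x → y = y')
    (g : X → ℝ) (hg : Summable (fun x => g x ^ 2)) :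
    Summable (fun y => ((σ y).elim 0 g) ^ 2) ∧
      ∑' y, ((σ y).elim 0 g) ^ 2 ≤ Nat.card ι * ∑' x, g x ^ 2 := by
  have hf := Fintype.ofFinite ι
  let A := {y : Y // (σ y).isSome}
  let e : A → ι × X := fun y => (κ y.1, (σ y.1).get y.2)
  have he : Function.Injective e := by
    intro y y' h
    have h1 := (Prod.ext_iff.1 h).1
    have h2 := (Prod.ext_iff.1 h).2
    apply Subtype.ext
    refine hinj y.1 y'.1 ((σ y.1).get y.2) h1 ?_ ?_
    · simp
    · have h3 : (σ y.1).get y.2 = (σ y'.1).get y'.2 := h2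
      rw [h3]
      simp
  have hsum : Summable (fun p : ι × X => g p.2 ^ 2) := by
    rw [summable_prod_of_nonneg (fun p => sq_nonneg _)]
    exact ⟨fun _ => hg, Summable.of_finite⟩
  have hts : ∑' p : ι × X, g p.2 ^ 2 = Nat.card ι * ∑' x, g x ^ 2 := by
    rw [hsum.tsum_prod, tsum_fintype]
    simp [Nat.card_eq_fintype_card]
  have hfe : ∀ y : A, ((σ y.1).elim 0 g) ^ 2 = g (e y).2 ^ 2 := by
    intro y
    obtain ⟨x, hx⟩ := Option.isSome_iff_exists.1 y.2
    have : (e y).2 = x := by simp [e, hx]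
    rw [this, hx]
    rfl
  have hsA : Summable (fun y : A => ((σ y.1).elim 0 g) ^ 2) := by
    have := hsum.comp_injective he
    refine this.congr (fun y => ?_)
    exact (hfe y).symm
  have hz : ∀ y ∉ Set.range (Subtype.val : A → Y), ((σ y).elim 0 g) ^ 2 = 0 := by
    intro y hy
    have : σ y = none := by
      by_contra h
      exact hy ⟨⟨y, Option.isSome_iff_ne_none.2 h⟩, rfl⟩
    rw [this]
    simp
  have hs := (Function.Injective.summable_iff Subtype.val_injective hz).1 hsA
  refine ⟨hs, ?_⟩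
  have h1 : ∑' y, ((σ y).elim 0 g) ^ 2 = ∑' y : A, ((σ y.1).elim 0 g) ^ 2 :=
    (Function.Injective.tsum_eq Subtype.val_injective (f := fun y => ((σ y).elim 0 g) ^ 2)
      (fun y hy => by
        by_contra h
        exact hy (hz y h))).symm
  rw [h1, ← hts]
  rw [tsum_congr hfe]
  exact tsum_comp_le_tsum_of_inj hsum (fun _ => sq_nonneg _) he

/-! ### the divergence operator -/

/-- finitely many edges at every node -/
theorem l2_inj {G : Type} [Group G] {X Y : Type} [MulAction G X] [MulAction G Y]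
    (s : Y → Option X) (freeX : ∀ (g : G) (x : X), g • x = x → g = 1)
    (sE : ∀ (g : G) (y : Y), s (g • y) = (s y).map (g • ·)) (y y' : Y) (x : X)
    (h : (Quotient.mk (orbitRel G Y) y) = Quotient.mk (orbitRel G Y) y')
    (h1 : s y = some x) (h2 : s y' = some x) : y = y' := by
  have h3 : (orbitRel G Y).r y y' := Quotient.exact h
  obtain ⟨g, hg⟩ := h3
  have hg' : g • y' = y := hg
  have h4 := sE g y'
  rw [hg', h1, h2, Option.map_some] at h4
  have h5 : g • x = x := (Option.some.inj h4).symm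
  rw [← hg', freeX g x h5, one_smul]

theorem l2_fin {G : Type} [Group G] {X Y : Type} [MulAction G X] [MulAction G Y]
    (s : Y → Option X) (freeX : ∀ (g : G) (x : X), g • x = x → g = 1)
    (sE : ∀ (g : G) (y : Y), s (g • y) = (s y).map (g • ·))
    (hfin : Finite (Quotient (orbitRel G Y))) (x : X) : {y | s y = some x}.Finite := by
  apply Set.Finite.of_finite_image (f := fun y => Quotient.mk (orbitRel G Y) y)
  · exact Set.toFinite _
  · intro y hy y' hy' h
    exact l2_inj s freeX sE y y' x h hy hy'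

theorem l2_elim_smul {G : Type} [Group G] {X : Type} [MulAction G X] (o : Option X) (g : G)
    (f f' : X → ℝ) (h : ∀ x, f' x = f (g • x)) :
    o.elim 0 f' = (o.map (g • ·)).elim 0 f := by
  cases o with
  | none => rfl
  | some x => exact h x

/-- the operator `h ↦ (y ↦ h (s y) - h (t y))` -/
theorem l2_S {G : Type} [Group G] {X Y : Type} [MulAction G X] [MulAction G Y]
    (s t : Y → Option X) (freeX : ∀ (g : G) (x : X), g • x = x → g = 1)
    (sE : ∀ (g : G) (y : Y), s (g • y) = (s y).map (g • ·))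
    (tE : ∀ (g : G) (y : Y), t (g • y) = (t y).map (g • ·))
    (hfin : Finite (Quotient (orbitRel G Y))) :
    ∃ S : HS X →L[ℝ] HS Y, ∀ (f : HS X) (y : Y), S f y = (s y).elim 0 f - (t y).elim 0 f := by
  have hs := fun f : HS X => l2_pull (fun y => Quotient.mk (orbitRel G Y) y) s
    (fun y y' x h => l2_inj s freeX sE y y' x h) f (l2_sum f)
  have ht := fun f : HS X => l2_pull (fun y => Quotient.mk (orbitRel G Y) y) t
    (fun y y' x h => l2_inj t freeX tE y y' x h) f (l2_sum f)
  have hle : ∀ (f : HS X) (y : Y), ((s y).elim 0 f - (t y).elim 0 f) ^ 2 ≤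
      2 * ((s y).elim 0 f) ^ 2 + 2 * ((t y).elim 0 f) ^ 2 := by
    intro f y
    nlinarith [sq_nonneg ((s y).elim 0 f + (t y).elim 0 f)]
  have hsum : ∀ f : HS X, Summable (fun y => ((s y).elim 0 f - (t y).elim 0 f) ^ 2) := by
    intro f
    exact Summable.of_nonneg_of_le (fun _ => sq_nonneg _) (hle f)
      (((hs f).1.mul_left 2).add ((ht f).1.mul_left 2))
  let L : HS X →ₗ[ℝ] (Y → ℝ) :=
    { toFun := fun f y => (s y).elim 0 f - (t y).elim 0 f
      map_add' := fun f g => by
        funext y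
        show _ = ((s y).elim 0 f - (t y).elim 0 f) + ((s y).elim 0 g - (t y).elim 0 g)
        cases s y <;> cases t y <;> simp <;> ring
      map_smul' := fun c f => by
        funext y
        show _ = c * ((s y).elim 0 f - (t y).elim 0 f)
        cases s y <;> cases t y <;> simp <;> ring }
  obtain ⟨T, hT⟩ := l2_op L (4 * Nat.card (Quotient (orbitRel G Y))) hsum (by
    intro f
    have h1 : ∑' y, L f y ^ 2 ≤ ∑' y, (2 * ((s y).elim 0 f) ^ 2 + 2 * ((t y).elim 0 f) ^ 2) :=
      Summable.tsum_le_tsum (hle f) (hsum f) (((hs f).1.mul_left 2).add ((ht f).1.mul_left 2))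
    rw [((hs f).1.mul_left 2).tsum_add ((ht f).1.mul_left 2), tsum_mul_left, tsum_mul_left] at h1
    have h2 := (hs f).2
    have h3 := (ht f).2
    rw [l2_norm]
    linarith)
  exact ⟨T, hT⟩

theorem l2_adj {G : Type} [Group G] {X Y : Type} [MulAction G X] [MulAction G Y]
    (s t : Y → Option X) (freeX : ∀ (g : G) (x : X), g • x = x → g = 1)
    (sE : ∀ (g : G) (y : Y), s (g • y) = (s y).map (g • ·))
    (tE : ∀ (g : G) (y : Y), t (g • y) = (t y).map (g • ·))
    (hfin : Finite (Quotient (orbitRel G Y)))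
    (S : HS X →L[ℝ] HS Y) (hS : ∀ (f : HS X) (y : Y), S f y = (s y).elim 0 f - (t y).elim 0 f)
    (f : HS Y) (p : X) :
    (ContinuousLinearMap.adjoint S) f p = divR Set.univ s t f p := by
  classical
  have h1 : inner ℝ (lp.single 2 p (1 : ℝ) : HS X) ((ContinuousLinearMap.adjoint S) f) =
      (ContinuousLinearMap.adjoint S) f p := by
    rw [lp.inner_single_left]
    simp
  rw [← h1, ContinuousLinearMap.adjoint_inner_right, l2_inner]
  have h2 : ∀ o : Option X, o.elim 0 (lp.single 2 p (1 : ℝ) : HS X) =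
      if o = some p then (1 : ℝ) else 0 := by
    intro o
    cases o with
    | none => simp
    | some x =>
      show (lp.single 2 p (1 : ℝ) : HS X) x = _
      rw [lp.single_apply]
      by_cases hx : x = p
      · subst hx; simp
      · have : ¬ (some x = some p) := fun h => hx (Option.some.inj h)
        rw [if_neg this]
        exact Pi.single_eq_of_ne hx _
  have h3 : ∀ y, (S (lp.single 2 p (1 : ℝ) : HS X)) y * f y =
      (if s y = some p then f y else 0) - (if t y = some p then f y else 0) := by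
    intro y
    rw [hS, h2, h2]
    split_ifs <;> ring
  rw [tsum_congr h3]
  have hfs : (Function.support (fun y => if s y = some p then f y else 0)).Finite :=
    (l2_fin s freeX sE hfin p).subset (fun y hy => by
      by_contra h
      exact hy (if_neg h))
  have hft : (Function.support (fun y => if t y = some p then f y else 0)).Finite :=
    (l2_fin t freeX tE hfin p).subset (fun y hy => by
      by_contra h
      exact hy (if_neg h))
  rw [(summable_of_hasFiniteSupport hfs).tsum_sub (summable_of_hasFiniteSupport hft),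
    tsum_eq_finsum hfs, tsum_eq_finsum hft]
  unfold divR
  congr 1
  · refine finsum_congr (fun y => ?_)
    rw [finsum_eq_if]
    simp
  · refine finsum_congr (fun y => ?_)
    rw [finsum_eq_if]
    simp

/-! ### orbits -/

/-- the orbit of a class -/
def l2_orb (G : Type) [Group G] (X : Type) [MulAction G X] : Quotient (orbitRel G X) → Set X :=
  Quotient.lift (fun x => orbit G x) (fun _ _ h => orbit_eq_iff.2 h)

theorem l2_orb_inj (G : Type) [Group G] (X : Type) [MulAction G X] :
    Function.Injective (l2_orb G X) := by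
  intro a b
  induction a using Quotient.inductionOn
  induction b using Quotient.inductionOn
  intro h
  exact Quotient.sound (orbit_eq_iff.1 h)

theorem l2_orb_range (G : Type) [Group G] (X : Type) [MulAction G X] :
    Set.range (l2_orb G X) = (fun x : X => orbit G x) '' Set.univ := by
  ext A
  constructor
  · rintro ⟨a, rfl⟩
    induction a using Quotient.inductionOn with
    | h x => exact ⟨x, trivial, rfl⟩
  · rintro ⟨x, -, rfl⟩
    exact ⟨Quotient.mk _ x, rfl⟩

theorem l2_card (G : Type) [Group G] (X : Type) [MulAction G X] :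
    Nat.card (Quotient (orbitRel G X)) = oc G (Set.univ : Set X) := by
  unfold oc
  rw [← l2_orb_range, ← Nat.card_range_of_injective (l2_orb_inj G X)]
  rfl

theorem l2_finq (G : Type) [Group G] (X : Type) [MulAction G X]
    (h : FinOrb G (Set.univ : Set X)) : Finite (Quotient (orbitRel G X)) := by
  unfold FinOrb at h
  rw [← l2_orb_range] at h
  have h' : Finite (Set.range (l2_orb G X)) := h.to_subtype
  exact Finite.of_injective (fun a => (⟨l2_orb G X a, a, rfl⟩ : Set.range (l2_orb G X)))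
    (fun a b hab => l2_orb_inj G X (congrArg Subtype.val hab))

/-- orbits and equivariant injections -/
theorem l2_orbit_image {G : Type} [Group G] {α β : Type} [MulAction G α] [MulAction G β]
    (i : α → β) (hi : ∀ (g : G) a, i (g • a) = g • i a) (a : α) :
    orbit G (i a) = i '' orbit G a := by
  ext b
  constructor
  · rintro ⟨g, rfl⟩
    exact ⟨g • a, ⟨g, rfl⟩, hi g a⟩
  · rintro ⟨_, ⟨g, rfl⟩, rfl⟩
    exact ⟨g, (hi g a).symm⟩

theorem l2_image_image {G : Type} [Group G] {α β : Type} [MulAction G α] [MulAction G β]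
    (i : α → β) (hi : ∀ (g : G) a, i (g • a) = g • i a) (A : Set α) :
    (fun x : β => orbit G x) '' (i '' A) = (Set.image i) '' ((fun x : α => orbit G x) '' A) := by
  rw [Set.image_image, Set.image_image]
  exact Set.image_congr (fun a _ => l2_orbit_image i hi a)

theorem l2_oc {G : Type} [Group G] {α β : Type} [MulAction G α] [MulAction G β]
    (i : α → β) (hinj : Function.Injective i) (hi : ∀ (g : G) a, i (g • a) = g • i a)
    (A : Set α) : oc G (i '' A) = oc G A := by
  unfold oc
  rw [l2_image_image i hi]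
  exact Set.ncard_image_of_injective _ (Set.image_injective.2 hinj)

theorem l2_finorb {G : Type} [Group G] {α β : Type} [MulAction G α] [MulAction G β]
    (i : α → β) (hinj : Function.Injective i) (hi : ∀ (g : G) a, i (g • a) = g • i a)
    (A : Set α) (h : FinOrb G (i '' A)) : FinOrb G A := by
  unfold FinOrb at h ⊢
  rw [l2_image_image i hi] at h
  exact Set.Finite.of_finite_image h (Set.image_injective.2 hinj).injOn

theorem l2_core (hA : ST_L2A) (hC : ST_L2C) (G : Type) [Group G] (X Y : Type) [MulAction G X]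
    [MulAction G Y] (s t : Y → Option X) (H : GrH (Set.univ : Set Y) s t G (Set.univ : Set X)) :
    ∃ T : HS Y →L[ℝ] HS X, (∀ (f : HS Y) (p : X), T f p = divR Set.univ s t f p) ∧ EqvO G T ∧
      dimG G (LinearMap.ker T.toLinearMap) = (oc G (Set.univ : Set Y) : ℝ) -
        oc G (Set.univ : Set X) + cR (Set.univ : Set Y) s t G (Set.univ : Set X) := by
  have freeX : ∀ (g : G) (x : X), g • x = x → g = 1 := fun g x => H.freeX g x trivial
  have freeY : ∀ (g : G) (y : Y), g • y = y → g = 1 := fun g y => H.freeY g y trivial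
  have sE : ∀ (g : G) (y : Y), s (g • y) = (s y).map (g • ·) := fun g y => H.sE g y trivial
  have tE : ∀ (g : G) (y : Y), t (g • y) = (t y).map (g • ·) := fun g y => H.tE g y trivial
  have finY := l2_finq G Y H.finY
  have finX := l2_finq G X H.finX
  obtain ⟨S, hS⟩ := l2_S s t freeX sE tE finY
  have hT := l2_adj s t freeX sE tE finY S hS
  have hE : EqvO G (ContinuousLinearMap.adjoint S) := by
    intro g f f' hf x
    rw [hT, hT]
    have key : ∀ r : Y → Option X, (∀ (g : G) (y : Y), r (g • y) = (r y).map (g • ·)) →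
        (∑ᶠ (y) (_ : y ∈ (Set.univ : Set Y) ∧ r y = some x), f' y) =
        ∑ᶠ (y) (_ : y ∈ (Set.univ : Set Y) ∧ r y = some (g • x)), f y := by
      intro r rE
      rw [← finsum_comp_equiv (MulAction.toPerm g) (f := fun y =>
        ∑ᶠ (_ : y ∈ (Set.univ : Set Y) ∧ r y = some (g • x)), f y)]
      refine finsum_congr (fun y => ?_)
      have h1 : (y ∈ (Set.univ : Set Y) ∧ r y = some x) ↔
          ((MulAction.toPerm g) y ∈ (Set.univ : Set Y) ∧
            r ((MulAction.toPerm g) y) = some (g • x)) := by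
        rw [MulAction.toPerm_apply, rE]
        simp only [Set.mem_univ, true_and]
        cases r y with
        | none => simp
        | some z =>
          simp only [Option.map_some, Option.some.injEq]
          exact (smul_left_cancel_iff g).symm
      rw [MulAction.toPerm_apply] at h1 ⊢
      rw [hf y]
      exact finsum_congr_Prop (propext h1) (fun _ => rfl)
    unfold divR
    rw [key s sE, key t tE]
  refine ⟨ContinuousLinearMap.adjoint S, hT, hE, ?_⟩
  have h1 := hA G Y X freeY freeX finY finX (ContinuousLinearMap.adjoint S) hE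
  rw [ContinuousLinearMap.adjoint_adjoint] at h1
  have h2 := hC G Y X s t H (LinearMap.ker S.toLinearMap) (by
    intro f
    rw [LinearMap.mem_ker]
    constructor
    · intro h y
      have h3 : S f y = 0 := by
        have : S f = 0 := h
        rw [this]
        rfl
      rw [hS] at h3
      linarith
    · intro h
      show S f = 0
      ext y
      rw [hS, h y, sub_self]
      rfl)
  rw [h2, l2_card, l2_card] at h1
  linarith

/-! ### restriction to the invariant sets -/

/-- the action on an invariant subset -/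
@[reducible] def l2_act {G : Type} [Group G] {X : Type} [MulAction G X] (NX : Set X)
    (h : ∀ (g : G), ∀ x ∈ NX, g • x ∈ NX) : MulAction G NX where
  smul g x := ⟨g • x.1, h g x.1 x.2⟩
  one_smul x := Subtype.ext (one_smul G x.1)
  mul_smul g g' x := Subtype.ext (mul_smul g g' x.1)

open Classical in
/-- restriction of values -/
noncomputable def l2_res {X : Type} (NX : Set X) (o : Option X) : Option NX :=
  o.elim none (fun x => if h : x ∈ NX then some ⟨x, h⟩ else none)

theorem l2_res_some {X : Type} (NX : Set X) (o : Option X) (p : NX) :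
    l2_res NX o = some p ↔ o = some p.1 := by
  cases o with
  | none => simp [l2_res]
  | some x =>
    simp only [l2_res, Option.elim_some]
    by_cases hx : x ∈ NX
    · rw [dif_pos hx]
      constructor
      · intro h
        rw [← Option.some.inj h]
      · intro h
        have := Option.some.inj h
        subst this
        rfl
    · rw [dif_neg hx]
      constructor
      · intro h; exact absurd h (by simp)
      · intro h
        have := Option.some.inj h
        subst this
        exact absurd p.2 hx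

theorem l2_res_isSome {X : Type} (NX : Set X) (o : Option X) (h : ∀ x, o = some x → x ∈ NX) :
    (l2_res NX o).isSome ↔ o.isSome := by
  rw [Option.isSome_iff_exists, Option.isSome_iff_exists]
  constructor
  · rintro ⟨p, hp⟩
    exact ⟨p.1, (l2_res_some NX o p).1 hp⟩
  · rintro ⟨x, hx⟩
    exact ⟨⟨x, h x hx⟩, (l2_res_some NX o ⟨x, h x hx⟩).2 hx⟩

section sub

variable {G : Type} [Group G] {X Y : Type} [MulAction G X] [MulAction G Y] (NY : Set Y)
  (NX : Set X) (s t : Y → Option X)

theorem l2_step (H : GrH NY s t G NX) (p : NX) (q : X) :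
    stepR NY s t p.1 q ↔ ∃ q' : NX, q'.1 = q ∧ stepR (Set.univ : Set NY)
      (fun y => l2_res NX (s y.1)) (fun y => l2_res NX (t y.1)) p q' := by
  constructor
  · rintro ⟨y, hy, h⟩
    have hq : q ∈ NX := by
      rcases h with h | h
      · exact H.tN y hy q h.2
      · exact H.sN y hy q h.1
    refine ⟨⟨q, hq⟩, rfl, ⟨y, hy⟩, trivial, ?_⟩
    rcases h with h | h
    · exact Or.inl ⟨(l2_res_some _ _ _).2 h.1, (l2_res_some _ _ _).2 h.2⟩
    · exact Or.inr ⟨(l2_res_some _ _ _).2 h.1, (l2_res_some _ _ _).2 h.2⟩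
  · rintro ⟨q', rfl, y, -, h⟩
    refine ⟨y.1, y.2, ?_⟩
    rcases h with h | h
    · exact Or.inl ⟨(l2_res_some _ _ _).1 h.1, (l2_res_some _ _ _).1 h.2⟩
    · exact Or.inr ⟨(l2_res_some _ _ _).1 h.1, (l2_res_some _ _ _).1 h.2⟩

theorem l2_comp (H : GrH NY s t G NX) (p : NX) :
    compR NY s t p.1 = Subtype.val '' compR (Set.univ : Set NY)
      (fun y => l2_res NX (s y.1)) (fun y => l2_res NX (t y.1)) p := by
  ext q
  constructor
  · intro h
    have h' : Relation.ReflTransGen (stepR NY s t) p.1 q := h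
    induction h' with
    | refl => exact ⟨p, Relation.ReflTransGen.refl, rfl⟩
    | tail _ hst ih =>
      obtain ⟨r, hr, rfl⟩ := ih (by assumption)
      obtain ⟨q', rfl, hq⟩ := (l2_step NY NX s t H r _).1 hst
      exact ⟨q', Relation.ReflTransGen.tail hr hq, rfl⟩
  · rintro ⟨q', hq, rfl⟩
    have hq' : Relation.ReflTransGen (stepR (Set.univ : Set NY)
      (fun y => l2_res NX (s y.1)) (fun y => l2_res NX (t y.1))) p q' := hq
    induction hq' with
    | refl => exact Relation.ReflTransGen.refl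
    | tail _ hst ih =>
      exact Relation.ReflTransGen.tail (ih (by assumption))
        ((l2_step NY NX s t H _ _).2 ⟨_, rfl, hst⟩)

theorem l2_good (H : GrH NY s t G NX) (p : NX) :
    goodR NY s t p.1 ↔ goodR (Set.univ : Set NY)
      (fun y => l2_res NX (s y.1)) (fun y => l2_res NX (t y.1)) p := by
  unfold goodR
  rw [l2_comp NY NX s t H p]
  apply and_congr
  · exact Set.finite_image_iff Subtype.val_injective.injOn
  · constructor
    · intro h q hq y _
      have h1 := h q.1 ⟨q, hq, rfl⟩ y.1 y.2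
      constructor
      · intro h2
        exact (l2_res_isSome NX _ (H.tN y.1 y.2)).2 (h1.1 ((l2_res_some _ _ _).1 h2))
      · intro h2
        exact (l2_res_isSome NX _ (H.sN y.1 y.2)).2 (h1.2 ((l2_res_some _ _ _).1 h2))
    · rintro h _ ⟨q, hq, rfl⟩ y hy
      have h1 := h q hq ⟨y, hy⟩ trivial
      constructor
      · intro h2
        exact (l2_res_isSome NX _ (H.tN y hy)).1 (h1.1 ((l2_res_some _ _ _).2 h2))
      · intro h2
        exact (l2_res_isSome NX _ (H.sN y hy)).1 (h1.2 ((l2_res_some _ _ _).2 h2))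

end sub

theorem l2_val_smul {G : Type} [Group G] {X : Type} [MulAction G X] (NX : Set X)
    (h : ∀ (g : G), ∀ x ∈ NX, g • x ∈ NX) (g : G) (x : NX) :
    ((letI := l2_act NX h; g • x : NX) : X) = g • x.1 := rfl

theorem l2_GrH {G : Type} [Group G] {X Y : Type} [MulAction G X] [MulAction G Y] (NY : Set Y)
    (NX : Set X) (s t : Y → Option X) (H : GrH NY s t G NX) :
    letI := l2_act NX H.smulX
    letI := l2_act NY H.smulY
    GrH (Set.univ : Set NY) (fun y => l2_res NX (s y.1)) (fun y => l2_res NX (t y.1)) G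
      (Set.univ : Set NX) := by
  let _ := l2_act NX H.smulX
  let _ := l2_act NY H.smulY
  have hres : ∀ (g : G) (o : Option X), (∀ x, o = some x → x ∈ NX) →
      l2_res NX (o.map (g • ·)) = (l2_res NX o).map (g • ·) := by
    intro g o ho
    cases o with
    | none => rfl
    | some x =>
      have hx := ho x rfl
      have h1 : l2_res NX (some x) = some ⟨x, hx⟩ := (l2_res_some _ _ _).2 rfl
      rw [h1, Option.map_some, Option.map_some]
      exact (l2_res_some _ _ _).2 rfl
  refine ⟨fun _ _ _ => trivial, fun _ _ _ => trivial, ?_, ?_, ?_, ?_, fun _ _ _ _ => trivial,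
    fun _ _ _ _ => trivial, ?_, ?_, ?_⟩
  · intro g x _ h
    exact H.freeX g x.1 x.2 (congrArg Subtype.val h)
  · intro g y _ h
    exact H.freeY g y.1 y.2 (congrArg Subtype.val h)
  · apply l2_finorb (Subtype.val : NX → X) Subtype.val_injective (fun _ _ => rfl)
    rw [Set.image_univ, Subtype.range_val]
    exact H.finX
  · apply l2_finorb (Subtype.val : NY → Y) Subtype.val_injective (fun _ _ => rfl)
    rw [Set.image_univ, Subtype.range_val]
    exact H.finY
  · intro g y _
    show l2_res NX (s (g • y.1)) = _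
    rw [H.sE g y.1 y.2, hres g _ (H.sN y.1 y.2)]
  · intro g y _
    show l2_res NX (t (g • y.1)) = _
    rw [H.tE g y.1 y.2, hres g _ (H.tN y.1 y.2)]
  · intro p _ hp g hg
    apply H.triv p.1 p.2 ((l2_good NY NX s t H p).2 hp) g
    rw [l2_comp NY NX s t H p]
    have h1 := congrArg (fun A : Set NX => Subtype.val '' A) hg
    have h2 : Subtype.val '' (g • compR (Set.univ : Set NY)
      (fun y => l2_res NX (s y.1)) (fun y => l2_res NX (t y.1)) p) =
      g • (Subtype.val '' compR (Set.univ : Set NY)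
      (fun y => l2_res NX (s y.1)) (fun y => l2_res NX (t y.1)) p) := by
      rw [← Set.image_smul, ← Set.image_smul, Set.image_image, Set.image_image]
      rfl
    rw [← h2]
    exact h1

theorem l2_cR {G : Type} [Group G] {X Y : Type} [MulAction G X] [MulAction G Y] (NY : Set Y)
    (NX : Set X) (s t : Y → Option X) (H : GrH NY s t G NX) :
    letI := l2_act NX H.smulX
    cR NY s t G NX = cR (Set.univ : Set NY) (fun y => l2_res NX (s y.1))
      (fun y => l2_res NX (t y.1)) G (Set.univ : Set NX) := by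
  letI := l2_act NX H.smulX
  show oc G _ = oc G _
  rw [← l2_oc (Set.image (Subtype.val : NX → X)) (Set.image_injective.2 Subtype.val_injective)
    (fun g A => by
      rw [← Set.image_smul, ← Set.image_smul, Set.image_image, Set.image_image]
      rfl)]
  congr 1
  ext C
  constructor
  · rintro ⟨p, hp, hg, rfl⟩
    exact ⟨_, ⟨⟨p, hp⟩, trivial, (l2_good NY NX s t H ⟨p, hp⟩).1 hg, rfl⟩,
      (l2_comp NY NX s t H ⟨p, hp⟩).symm⟩
  · rintro ⟨_, ⟨p, -, hg, rfl⟩, rfl⟩
    exact ⟨p.1, p.2, (l2_good NY NX s t H p).2 hg, (l2_comp NY NX s t H p).symm⟩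

theorem l2_ocX {G : Type} [Group G] {X : Type} [MulAction G X] (NX : Set X)
    (h : ∀ (g : G), ∀ x ∈ NX, g • x ∈ NX) :
    letI := l2_act NX h
    oc G NX = oc G (Set.univ : Set NX) := by
  letI := l2_act NX h
  rw [← l2_oc (Subtype.val : NX → X) Subtype.val_injective (fun _ _ => rfl)]
  rw [Set.image_univ, Subtype.range_val]

/-! ### extension by zero -/

/-- extension by zero -/
noncomputable def l2_ext {Y : Type} (NY : Set Y) : (NY → ℝ) →ₗ[ℝ] (Y → ℝ) :=
  Function.ExtendByZero.linearMap ℝ (Subtype.val : NY → Y)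

theorem l2_ext_val {Y : Type} (NY : Set Y) (f : NY → ℝ) (y : NY) : l2_ext NY f y.1 = f y :=
  Subtype.val_injective.extend_apply f 0 y

theorem l2_ext_not {Y : Type} (NY : Set Y) (f : NY → ℝ) (y : Y) (hy : y ∉ NY) :
    l2_ext NY f y = 0 := by
  have h : ¬ ∃ a : NY, a.1 = y := by
    rintro ⟨a, rfl⟩
    exact hy a.2
  exact Function.extend_apply' (f := (Subtype.val : NY → Y)) f (0 : Y → ℝ) y h

theorem l2_ext_eq {Y : Type} (NY : Set Y) (f : NY → ℝ) (b : Y → ℝ) (h1 : ∀ y : NY, b y.1 = f y)
    (h2 : ∀ y ∉ NY, b y = 0) : l2_ext NY f = b := by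
  funext y
  by_cases hy : y ∈ NY
  · rw [h1 ⟨y, hy⟩]
    exact l2_ext_val NY f ⟨y, hy⟩
  · rw [l2_ext_not NY f y hy, h2 y hy]

theorem l2_sub_sum {Y : Type} (NY : Set Y) (b : Y → ℝ) (h2 : ∀ y ∉ NY, b y = 0) :
    (Summable (fun y : NY => b y.1 ^ 2) ↔ Summable (fun y => b y ^ 2)) ∧
      ∑' y : NY, b y.1 ^ 2 = ∑' y, b y ^ 2 := by
  have hz : ∀ y ∉ Set.range (Subtype.val : NY → Y), b y ^ 2 = 0 := by
    intro y hy
    rw [h2 y (fun h => hy ⟨⟨y, h⟩, rfl⟩)]
    simp
  exact ⟨Function.Injective.summable_iff Subtype.val_injective hz,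
    Function.Injective.tsum_eq Subtype.val_injective (f := fun y => b y ^ 2)
      (fun y hy => by
        by_contra h
        exact hy (hz y h))⟩

theorem l2_div_sub {X Y : Type} (NY : Set Y) (NX : Set X) (s t : Y → Option X) (f : NY → ℝ)
    (p : NX) : divR NY s t (l2_ext NY f) p.1 = divR (Set.univ : Set NY)
      (fun y => l2_res NX (s y.1)) (fun y => l2_res NX (t y.1)) f p := by
  classical
  have key : ∀ r : Y → Option X,
      (∑ᶠ (y) (_ : y ∈ NY ∧ r y = some p.1), l2_ext NY f y) =
      ∑ᶠ (y : NY) (_ : y ∈ (Set.univ : Set NY) ∧ l2_res NX (r y.1) = some p), f y := by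
    intro r
    have h1 : ∀ y : NY, (∑ᶠ (_ : y ∈ (Set.univ : Set NY) ∧ l2_res NX (r y.1) = some p), f y) =
        (if r y.1 = some p.1 then l2_ext NY f y.1 else 0) := by
      intro y
      rw [finsum_eq_if, l2_ext_val]
      simp only [Set.mem_univ, true_and, l2_res_some]
    rw [finsum_congr h1]
    rw [finsum_set_coe_eq_finsum_mem (f := fun y => if r y = some p.1 then l2_ext NY f y else 0)]
    refine finsum_congr (fun y => ?_)
    rw [finsum_eq_if, finsum_eq_if]
    by_cases h2 : y ∈ NY <;> by_cases h3 : r y = some p.1 <;> simp [h2, h3]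
  unfold divR
  rw [key s, key t]

theorem l2_cyc {X Y : Type} (NY : Set Y) (NX : Set X) (s t : Y → Option X)
    (T : HS NY →L[ℝ] HS NX) (hT : ∀ (f : HS NY) (p : NX), T f p = divR (Set.univ : Set NY)
      (fun y => l2_res NX (s y.1)) (fun y => l2_res NX (t y.1)) f p) (f : HS NY) :
    T f = 0 ↔ l2_ext NY f ∈ cycR NY s t NX := by
  constructor
  · intro h
    refine ⟨fun y hy => l2_ext_not NY f y hy, ?_, ?_⟩
    · rw [← (l2_sub_sum NY (l2_ext NY f) (fun y hy => l2_ext_not NY f y hy)).1]
      simp only [l2_ext_val]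
      exact l2_sum f
    · intro p hp
      rw [l2_div_sub NY NX s t f ⟨p, hp⟩, ← hT, h]
      rfl
  · rintro ⟨-, -, h⟩
    ext p
    rw [hT, ← l2_div_sub NY NX s t f p, h p.1 p.2]
    rfl

/-- the operator on the subtype given by an `L2Map` -/
theorem l2_map {G : Type} [Group G] {Y : Type} [MulAction G Y] (NY : Set Y)
    (hY : ∀ (g : G), ∀ y ∈ NY, g • y ∈ NY) (Φ : (Y → ℝ) →ₗ[ℝ] (Y → ℝ)) (h : L2Map G NY Φ) :
    letI := l2_act NY hY
    ∃ T : HS NY →L[ℝ] HS NY, (∀ f : HS NY, l2_ext NY (T f) = Φ (l2_ext NY f)) ∧ EqvO G T := by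
  letI := l2_act NY hY
  obtain ⟨C, hC⟩ := h.bdd
  have hs0 : ∀ f : HS NY, Summable (fun y => l2_ext NY f y ^ 2) ∧
      ∑' y, l2_ext NY f y ^ 2 = ‖f‖ ^ 2 := by
    intro f
    have h1 := l2_sub_sum NY (l2_ext NY f) (fun y hy => l2_ext_not NY f y hy)
    simp only [l2_ext_val] at h1
    refine ⟨h1.1.1 (l2_sum f), ?_⟩
    rw [← h1.2, l2_norm]
  have hsupp : ∀ f : HS NY, ∀ y ∉ NY, Φ (l2_ext NY f) y = 0 := fun f =>
    h.supp _ (fun y hy => l2_ext_not NY f y hy)
  have hb := fun f : HS NY => hC (l2_ext NY f) (fun y hy => l2_ext_not NY f y hy) (hs0 f).1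
  let L : HS NY →ₗ[ℝ] (NY → ℝ) :=
    { toFun := fun f y => Φ (l2_ext NY f) y.1
      map_add' := fun f g => by
        funext y
        show Φ (l2_ext NY (f + g : HS NY)) y.1 = _
        rw [show l2_ext NY ((f + g : HS NY) : NY → ℝ) = l2_ext NY f + l2_ext NY g from
          map_add (l2_ext NY) _ _, map_add]
        rfl
      map_smul' := fun c f => by
        funext y
        show Φ (l2_ext NY (c • f : HS NY)) y.1 = _
        rw [show l2_ext NY ((c • f : HS NY) : NY → ℝ) = c • l2_ext NY f from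
          map_smul (l2_ext NY) _ _, map_smul]
        rfl }
  obtain ⟨T, hT⟩ := l2_op L C
    (fun f => (l2_sub_sum NY _ (hsupp f)).1.2 (hb f).1)
    (fun f => by
      have h1 := (hb f).2
      rw [(hs0 f).2, ← (l2_sub_sum NY _ (hsupp f)).2] at h1
      exact h1)
  have hT' : ∀ f : HS NY, l2_ext NY (T f) = Φ (l2_ext NY f) := fun f =>
    l2_ext_eq NY _ _ (fun y => (hT f y).symm) (hsupp f)
  refine ⟨T, hT', ?_⟩
  intro g f f' hf x
  have h1 : l2_ext NY f' = fun y => l2_ext NY f (g • y) := by
    apply l2_ext_eq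
    · intro y
      rw [hf y]
      exact l2_ext_val NY f (g • y)
    · intro y hy
      apply l2_ext_not
      intro hgy
      apply hy
      have := hY g⁻¹ _ hgy
      rwa [inv_smul_smul] at this
  rw [hT, hT]
  show Φ (l2_ext NY f') x.1 = Φ (l2_ext NY f) (g • x.1)
  rw [h1, h.equi g _ (fun y hy => l2_ext_not NY f y hy)]

theorem st_L2 (hA : ST_L2A) (hB : ST_L2B) (hC : ST_L2C) : ST_L2 := by
  intro G _ Y _ NY X₁ _ NX₁ s₁ t₁ X₂ _ NX₂ s₂ t₂ Φ Ψ H₁ H₂ hΦ hΨ hinv hcyc
  letI i1 := l2_act NX₁ H₁.smulX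
  letI i2 := l2_act NX₂ H₂.smulX
  letI iY := l2_act NY H₁.smulY
  obtain ⟨T₁, hT₁, hE₁, hd₁⟩ := l2_core hA hC G NX₁ NY _ _ (l2_GrH NY NX₁ s₁ t₁ H₁)
  obtain ⟨T₂, hT₂, hE₂, hd₂⟩ := l2_core hA hC G NX₂ NY _ _ (l2_GrH NY NX₂ s₂ t₂ H₂)
  obtain ⟨P, hP, hPE⟩ := l2_map NY H₁.smulY Φ hΦ
  obtain ⟨Q, hQ, hQE⟩ := l2_map NY H₁.smulY Ψ hΨ
  have hc₁ := l2_cyc NY NX₁ s₁ t₁ T₁ hT₁
  have hc₂ := l2_cyc NY NX₂ s₂ t₂ T₂ hT₂
  have hinjE : ∀ f g : HS NY, l2_ext NY f = l2_ext NY g → f = g := by
    intro f g h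
    ext y
    rw [← l2_ext_val NY f y, ← l2_ext_val NY g y, h]
  have hQP : ∀ f, Q (P f) = f := by
    intro f
    apply hinjE
    rw [hQ, hP]
    exact (hinv _ (fun y hy => l2_ext_not NY f y hy)).1
  have hPQ : ∀ f, P (Q f) = f := by
    intro f
    apply hinjE
    rw [hP, hQ]
    exact (hinv _ (fun y hy => l2_ext_not NY f y hy)).2
  have finY := l2_finq G NY (l2_GrH NY NX₁ s₁ t₁ H₁).finY
  have freeY : ∀ (g : G) (y : NY), g • y = y → g = 1 := fun g y h =>
    (l2_GrH NY NX₁ s₁ t₁ H₁).freeY g y trivial h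
  obtain ⟨hB1, hB2⟩ := hB G NY freeY finY
  have inv₁ : InvS G (LinearMap.ker T₁.toLinearMap) := by
    intro g f f' hf h
    have h' : T₁ f = 0 := h
    show T₁ f' = 0
    ext x
    rw [hE₁ g f f' hf x, h']
    rfl
  have inv₂ : InvS G (LinearMap.ker T₂.toLinearMap) := by
    intro g f f' hf h
    have h' : T₂ f = 0 := h
    show T₂ f' = 0
    ext x
    rw [hE₂ g f f' hf x, h']
    rfl
  have cl₁ : IsClosed (LinearMap.ker T₁.toLinearMap : Set (HS NY)) := T₁.isClosed_ker
  have cl₂ : IsClosed (LinearMap.ker T₂.toLinearMap : Set (HS NY)) := T₂.isClosed_ker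
  have hmap : ((LinearMap.ker T₁.toLinearMap).map P.toLinearMap : Set (HS NY)) =
      Q ⁻¹' (LinearMap.ker T₁.toLinearMap : Set (HS NY)) := by
    ext f
    constructor
    · rintro ⟨a, ha, rfl⟩
      show Q (P a) ∈ (LinearMap.ker T₁.toLinearMap : Set (HS NY))
      rw [hQP]
      exact ha
    · intro h
      exact ⟨Q f, h, hPQ f⟩
  have cl₃ : IsClosed ((LinearMap.ker T₁.toLinearMap).map P.toLinearMap : Set (HS NY)) := by
    rw [hmap]
    exact cl₁.preimage Q.continuous
  have inv₃ : InvS G ((LinearMap.ker T₁.toLinearMap).map P.toLinearMap) := by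
    intro g f f' hf h
    have h1 : f ∈ ((LinearMap.ker T₁.toLinearMap).map P.toLinearMap : Set (HS NY)) := h
    rw [hmap] at h1
    have h2 : f' ∈ ((LinearMap.ker T₁.toLinearMap).map P.toLinearMap : Set (HS NY)) := by
      rw [hmap]
      exact inv₁ g (Q f) (Q f') (fun y => hQE g f f' hf y) h1
    exact h2
  have hle : (LinearMap.ker T₁.toLinearMap).map P.toLinearMap ≤ LinearMap.ker T₂.toLinearMap := by
    rintro _ ⟨a, ha, rfl⟩
    have ha' : T₁ a = 0 := ha
    have h1 := hcyc _ ((hc₁ a).1 ha')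
    rw [← hP] at h1
    exact (hc₂ (P a)).2 h1
  have hmono := hB1 _ _ cl₃ cl₂ inv₃ inv₂ hle
  have hdim := hB2 P Q hPE hQE hQP hPQ _ cl₁ inv₁
  rw [hdim, hd₁, hd₂] at hmono
  have e1 := l2_cR NY NX₁ s₁ t₁ H₁
  have e2 := l2_cR NY NX₂ s₂ t₂ H₂
  have e3 := l2_ocX NX₁ H₁.smulX
  have e4 := l2_ocX NX₂ H₂.smulX
  rw [e1, e2, e3, e4]
  constructor
  · have := hmono.1
    have h5 : ((cR (Set.univ : Set NY) (fun y => l2_res NX₁ (s₁ y.1))
      (fun y => l2_res NX₁ (t₁ y.1)) G (Set.univ : Set NX₁) + oc G (Set.univ : Set NX₂) : ℕ) : ℝ) ≤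
      ((cR (Set.univ : Set NY) (fun y => l2_res NX₂ (s₂ y.1))
      (fun y => l2_res NX₂ (t₂ y.1)) G (Set.univ : Set NX₂) + oc G (Set.univ : Set NX₁) : ℕ) : ℝ) := by
      push_cast
      linarith
    exact_mod_cast h5
  · intro heq b hb
    have h5 : ((cR (Set.univ : Set NY) (fun y => l2_res NX₁ (s₁ y.1))
      (fun y => l2_res NX₁ (t₁ y.1)) G (Set.univ : Set NX₁) + oc G (Set.univ : Set NX₂) : ℕ) : ℝ) =
      ((cR (Set.univ : Set NY) (fun y => l2_res NX₂ (s₂ y.1))
      (fun y => l2_res NX₂ (t₂ y.1)) G (Set.univ : Set NX₂) + oc G (Set.univ : Set NX₁) : ℕ) : ℝ) := by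
      rw [heq]
    push_cast at h5
    have h6 := hmono.2 (by linarith)
    have hs : Summable (fun y : NY => b y.1 ^ 2) := (l2_sub_sum NY b hb.1).1.2 hb.2.1
    let f : HS NY := ⟨fun y => b y.1, l2_mem hs⟩
    have hf : l2_ext NY f = b := l2_ext_eq NY _ _ (fun y => rfl) hb.1
    have h7 : T₂ f = 0 := (hc₂ f).2 (by rw [hf]; exact hb)
    have h8 : f ∈ (LinearMap.ker T₁.toLinearMap).map P.toLinearMap := by
      rw [h6]
      exact h7
    obtain ⟨a, ha, hPa⟩ := h8
    have hPa' : P a = f := hPa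
    have h9 : l2_ext NY a ∈ cycR NY s₁ t₁ NX₁ := (hc₁ a).1 ha
    have h10 : Ψ b = l2_ext NY a := by
      rw [← hf, ← hPa', hP]
      exact (hinv _ (fun y hy => l2_ext_not NY a y hy)).1
    rw [h10]
    exact h9

end Pool.Agent.Helper93.HZ
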