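import Pool.Agent.Helper93.HZ.Spec3
import Pool.Agent.Helper11.HZ.L2

/-!
# MP_64298a_al, module EXT: the exit theorem (6.14)
-/

set_option autoImplicit false

open MulAction Pointwise

namespace Pool.Agent.Helper93.HZ

open Ctx

/-! ### counting orbits -/

section count

variable {G : Type} [Group G]

theorem ext_oc_union {α : Type} [MulAction G α] (A B : Set α) (hA : ∀ (g : G), ∀ a ∈ A, g • a ∈ A)
    (hd : ∀ a ∈ A, a ∉ B) (fA : FinOrb G A) (fB : FinOrb G B) :
    oc G (A ∪ B) = oc G A + oc G B := by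
  unfold oc
  rw [Set.image_union]
  refine Set.ncard_union_eq ?_ fA fB
  rw [Set.disjoint_left]
  rintro _ ⟨a, ha, rfl⟩ ⟨b, hb, h⟩
  have h' : orbit G b = orbit G a := h
  have h1 : b ∈ orbit G a := by
    rw [← h']
    exact mem_orbit_self b
  obtain ⟨g, hg⟩ := h1
  have hg' : g • a = b := hg
  exact hd b (by rw [← hg']; exact hA g a ha) hb

theorem ext_finorb_mono {α : Type} [MulAction G α] {A B : Set α} (h : A ⊆ B) (hB : FinOrb G B) :
    FinOrb G A := Set.Finite.subset hB (Set.image_mono h)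

theorem ext_oc_mono {α : Type} [MulAction G α] {A B : Set α} (h : A ⊆ B) (hB : FinOrb G B) :
    oc G A ≤ oc G B := Set.ncard_le_ncard (Set.image_mono h) hB

theorem ext_oc_image {α β : Type} [MulAction G α] [MulAction G β] (f : α → β)
    (hf : ∀ (g : G) a, f (g • a) = g • f a) (A : Set α) (hA : FinOrb G A) :
    oc G (f '' A) ≤ oc G A := by
  unfold oc
  rw [l2_image_image f hf]
  exact Set.ncard_image_le hA

theorem ext_finorb_image {α β : Type} [MulAction G α] [MulAction G β] (f : α → β)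
    (hf : ∀ (g : G) a, f (g • a) = g • f a) (A : Set α) (hA : FinOrb G A) :
    FinOrb G (f '' A) := by
  unfold FinOrb
  rw [l2_image_image f hf]
  exact Set.Finite.image _ hA

/-- the counting lemma -/
theorem ext_main {α κ : Type} [MulAction G α] [MulAction G κ] (E : Set α) (F : Set κ)
    (R : α → κ → Prop) (hR : ∀ (g : G) n C, R n C → R (g • n) (g • C))
    (hF : ∀ (g : G), ∀ C ∈ F, g • C ∈ F)
    (uniq : ∀ n, ∀ C ∈ F, ∀ C' ∈ F, R n C → R n C' → C = C')
    (triv : ∀ C ∈ F, ∀ g : G, g • C = C → g = 1)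
    (fE : FinOrb G E) (fF : FinOrb G F)
    (fin : ∀ C ∈ F, {n | n ∈ E ∧ R n C}.Finite)
    (ge : ∀ C ∈ F, 2 ≤ {n | n ∈ E ∧ R n C}.ncard) (hle : oc G E ≤ 2 * oc G F) :
    ∀ C ∈ F, {n | n ∈ E ∧ R n C}.ncard = 2 := by
  classical
  intro C0 hC0
  by_contra hne
  have h3 : 2 < {n | n ∈ E ∧ R n C0}.ncard := lt_of_le_of_ne (ge C0 hC0) (Ne.symm hne)
  let O := (fun x : κ => orbit G x) '' F
  have fO : Finite O := fF.to_subtype
  have hfO : Fintype O := Fintype.ofFinite O
  have hrep : ∀ o : O, ∃ C ∈ F, orbit G C = o.1 ∧ (o.1 = orbit G C0 → C = C0) := by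
    rintro ⟨o, C, hC, rfl⟩
    by_cases h : orbit G C = orbit G C0
    · exact ⟨C0, hC0, h.symm, fun _ => rfl⟩
    · exact ⟨C, hC, rfl, fun h' => absurd h' h⟩
  choose rep hrepF hrepO hrep0 using hrep
  have hfin : ∀ o : O, Finite {n | n ∈ E ∧ R n (rep o)} := fun o => (fin _ (hrepF o)).to_subtype
  let j : (Σ o : O, {n | n ∈ E ∧ R n (rep o)}) → ((fun x : α => orbit G x) '' E : Set (Set α)) :=
    fun p => ⟨orbit G p.2.1, p.2.1, p.2.2.1, rfl⟩
  have hj : Function.Injective j := by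
    rintro ⟨o, n, hn⟩ ⟨o', n', hn'⟩ h
    have h1 : orbit G n = orbit G n' := congrArg Subtype.val h
    have h2 : n' ∈ orbit G n := by
      rw [h1]
      exact mem_orbit_self n'
    obtain ⟨g, hg⟩ := h2
    have hg' : g • n = n' := hg
    subst hg'
    have h4 : R (g • n) (g • rep o) := hR g n _ hn.2
    have h5 : g • rep o = rep o' :=
      uniq _ _ (hF g _ (hrepF o)) _ (hrepF o') h4 hn'.2
    have h6 : o = o' := by
      apply Subtype.ext
      rw [← hrepO o, ← hrepO o', ← h5]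
      exact (orbit_smul g (rep o)).symm
    subst h6
    have h7 : g = 1 := triv _ (hrepF o) g h5
    subst h7
    have h8 : (1 : G) • n = n := one_smul G n
    congr 1
    exact Subtype.ext h8.symm
  have fE' : Finite ((fun x : α => orbit G x) '' E : Set (Set α)) := fE.to_subtype
  have h9 := Nat.card_le_card_of_injective j hj
  rw [Nat.card_sigma] at h9
  have h10 : Nat.card ((fun x : α => orbit G x) '' E : Set (Set α)) = oc G E := rfl
  have h11 : Nat.card O = oc G F := rfl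
  have h12 : ∀ o : O, Nat.card {n | n ∈ E ∧ R n (rep o)} = {n | n ∈ E ∧ R n (rep o)}.ncard :=
    fun o => rfl
  rw [h10] at h9
  have h13 : ∑ o : O, 2 < ∑ o : O, Nat.card {n | n ∈ E ∧ R n (rep o)} := by
    apply Finset.sum_lt_sum
    · intro o _
      rw [h12]
      exact ge _ (hrepF o)
    · refine ⟨⟨orbit G C0, C0, hC0, rfl⟩, Finset.mem_univ _, ?_⟩
      rw [h12, hrep0 ⟨orbit G C0, C0, hC0, rfl⟩ rfl]
      exact h3
  rw [Finset.sum_const, Finset.card_univ, ← Nat.card_eq_fintype_card, h11, smul_eq_mul] at h13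
  omega

end count

/-! ### components -/

section comp

variable {G : Type} [Group G] {X Y : Type} [MulAction G X] [MulAction G Y] {NY : Set Y}
  {NX : Set X} {s t : Y → Option X}

theorem ext_step_symm {p q : X} (h : stepR NY s t p q) : stepR NY s t q p := by
  obtain ⟨y, hy, h⟩ := h
  exact ⟨y, hy, h.symm⟩

theorem ext_comp_symm {p q : X} (h : q ∈ compR NY s t p) : p ∈ compR NY s t q := by
  have h' : Relation.ReflTransGen (stepR NY s t) p q := h
  induction h' with
  | refl => exact Relation.ReflTransGen.refl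
  | tail _ hst ih => exact Relation.ReflTransGen.head (ext_step_symm hst) (ih (by assumption))

theorem ext_comp_eq {p q : X} (h : q ∈ compR NY s t p) : compR NY s t q = compR NY s t p := by
  ext r
  constructor
  · intro hr
    exact Relation.ReflTransGen.trans h hr
  · intro hr
    exact Relation.ReflTransGen.trans (ext_comp_symm h) hr

theorem ext_step_smul (H : GrH NY s t G NX) (g : G) {p q : X} (h : stepR NY s t p q) :
    stepR NY s t (g • p) (g • q) := by
  obtain ⟨y, hy, h⟩ := h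
  refine ⟨g • y, H.smulY g y hy, ?_⟩
  rw [H.sE g y hy, H.tE g y hy]
  rcases h with ⟨h1, h2⟩ | ⟨h1, h2⟩
  · left; rw [h1, h2]; exact ⟨rfl, rfl⟩
  · right; rw [h1, h2]; exact ⟨rfl, rfl⟩

theorem ext_comp_smul_le (H : GrH NY s t G NX) (g : G) {p q : X} (h : q ∈ compR NY s t p) :
    g • q ∈ compR NY s t (g • p) := by
  have h' : Relation.ReflTransGen (stepR NY s t) p q := h
  induction h' with
  | refl => exact Relation.ReflTransGen.refl
  | tail _ hst ih => exact Relation.ReflTransGen.tail (ih (by assumption)) (ext_step_smul H g hst)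

theorem ext_comp_smul (H : GrH NY s t G NX) (g : G) (p : X) :
    compR NY s t (g • p) = g • compR NY s t p := by
  ext q
  rw [Set.mem_smul_set_iff_inv_smul_mem]
  constructor
  · intro h
    have := ext_comp_smul_le H g⁻¹ h
    rwa [inv_smul_smul] at this
  · intro h
    have := ext_comp_smul_le H g h
    rwa [smul_inv_smul] at this

theorem ext_comp_sub (H : GrH NY s t G NX) {p : X} (hp : p ∈ NX) {q : X}
    (h : q ∈ compR NY s t p) : q ∈ NX := by
  have h' : Relation.ReflTransGen (stepR NY s t) p q := h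
  induction h' with
  | refl => exact hp
  | tail _ hst _ =>
    obtain ⟨y, hy, h2⟩ := hst
    rcases h2 with h2 | h2
    · exact H.tN y hy _ h2.2
    · exact H.sN y hy _ h2.1

theorem ext_good_smul (H : GrH NY s t G NX) (g : G) {p : X} (h : goodR NY s t p) :
    goodR NY s t (g • p) := by
  constructor
  · rw [ext_comp_smul H g p]
    exact h.1.image (fun x => g • x)
  · intro q hq y hy
    rw [ext_comp_smul H g p, Set.mem_smul_set_iff_inv_smul_mem] at hq
    have h1 := h.2 _ hq (g⁻¹ • y) (H.smulY g⁻¹ y hy)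
    rw [H.sE g⁻¹ y hy, H.tE g⁻¹ y hy] at h1
    constructor
    · intro h2
      have h3 := h1.1 (by rw [h2]; rfl)
      simpa using h3
    · intro h2
      have h3 := h1.2 (by rw [h2]; rfl)
      simpa using h3

theorem ext_good_eq {p q : X} (h : q ∈ compR NY s t p) (hp : goodR NY s t p) :
    goodR NY s t q := by
  unfold goodR at hp ⊢
  rw [ext_comp_eq h]
  exact hp

end comp

/-! ### the split graph -/

section split

variable {G : Type} [Group G] (X : Ctx G)

/-- honest nodes -/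
def ext_A : Set (X.V × X.V × X.U × X.U) := {n | (Sum.inl n : X.NP) ∈ X.NQs}

/-- the node has an arc -/
def ext_a (n : X.V × X.V × X.U × X.U) : Prop :=
  ∃ z, X.K.tri n.1 n.2.1 z ∧ X.P.N z n.2.2.1 = n.2.2.2

/-- the partner -/
def ext_i (n : X.V × X.V × X.U × X.U) : X.V × X.V × X.U × X.U := (n.2.1, n.1, n.2.2.2, n.2.2.1)

def ext_E : Set (X.V × X.V × X.U × X.U) := {n | n ∈ ext_A X ∧ ext_a X n ∧ ext_a X (ext_i X n)}

def ext_T : Set (X.V × X.V × X.U × X.U) := {n | n ∈ ext_A X ∧ ¬ ext_a X n}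

/-- good components -/
def ext_C : Set (Set X.NP) :=
  {C | ∃ p ∈ X.NQs, goodR X.Y1 X.sQ X.tQ p ∧ C = compR X.Y1 X.sQ X.tQ p}

/-- nontrivial good components -/
def ext_F : Set (Set X.NP) := {C | C ∈ ext_C X ∧ ∀ n ∈ ext_T X, C ≠ {Sum.inl n}}

theorem ext_fld {N : X.U → X.U} (h : IsField X.D.T N) {u w : X.U} (ha : X.D.T.Adj u w) :
    N u = w ↔ N w ≠ u := h.2 u w ha

theorem ext_ii (n : X.V × X.V × X.U × X.U) : ext_i X (ext_i X n) = n := rfl

theorem ext_i_smul (g : G) (n : X.V × X.V × X.U × X.U) : ext_i X (g • n) = g • ext_i X n := rfl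

theorem ext_i_inj : Function.Injective (ext_i X) := by
  intro a b h
  rw [← ext_ii X a, h, ext_ii]

theorem ext_a_smul (g : G) {n : X.V × X.V × X.U × X.U} (h : ext_a X n) : ext_a X (g • n) := by
  obtain ⟨z, h1, h2⟩ := h
  refine ⟨g • z, X.K.smul_tri g _ _ _ h1, ?_⟩
  show X.P.N (g • z) (g • n.2.2.1) = g • n.2.2.2
  rw [X.P.eN, h2]

theorem ext_A_smul (H : GrH X.Y1 X.sQ X.tQ G X.NQs) (g : G) {n : X.V × X.V × X.U × X.U}
    (h : n ∈ ext_A X) : g • n ∈ ext_A X := H.smulX g (Sum.inl n) h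

theorem ext_T_smul (H : GrH X.Y1 X.sQ X.tQ G X.NQs) (g : G) {n : X.V × X.V × X.U × X.U}
    (h : n ∈ ext_T X) : g • n ∈ ext_T X := by
  refine ⟨ext_A_smul X H g h.1, fun ha => h.2 ?_⟩
  have := ext_a_smul X g⁻¹ ha
  rwa [inv_smul_smul] at this

theorem ext_E_smul (H : GrH X.Y1 X.sQ X.tQ G X.NQs) (g : G) {n : X.V × X.V × X.U × X.U}
    (h : n ∈ ext_E X) : g • n ∈ ext_E X :=
  ⟨ext_A_smul X H g h.1, ext_a_smul X g h.2.1, ext_a_smul X g h.2.2⟩

theorem ext_A_mem (n : X.V × X.V × X.U × X.U) : n ∈ ext_A X ↔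
    (X.FC2 n.1 n.2.1 ∧ Cross X.P n.1 n.2.1 n.2.2.1 n.2.2.2 ∧ X.Hon n.1 n.2.1 n.2.2.1 ∧
      X.Hon n.1 n.2.1 n.2.2.2) := Iff.rfl

theorem ext_NH1 : X.NH1 = {n | n ∈ ext_A X ∧ X.D.arr n.2.2.1 n.2.2.2} := by
  ext n
  exact Iff.rfl

theorem ext_finA (H : GrH X.Y1 X.sQ X.tQ G X.NQs) : FinOrb G (ext_A X) := by
  apply l2_finorb (Sum.inl : X.V × X.V × X.U × X.U → X.NP) Sum.inl_injective (fun _ _ => rfl)
  refine ext_finorb_mono ?_ H.finX
  rintro _ ⟨n, hn, rfl⟩
  exact hn

/-- the partner of an honest node -/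
theorem ext_A_i (hC : ST_CMP) {n : X.V × X.V × X.U × X.U} (h : n ∈ ext_A X) :
    ext_i X n ∈ ext_A X := ((hC G X).2.2.2.1 n.1 n.2.1 n.2.2.1 n.2.2.2 h).2.2

theorem ext_A_or (hC : ST_CMP) {n : X.V × X.V × X.U × X.U} (h : n ∈ ext_A X) :
    ext_a X n ∨ ext_a X (ext_i X n) := by
  rcases ((hC G X).2.2.2.1 n.1 n.2.1 n.2.2.1 n.2.2.2 h).2.1 with ⟨z, h1, h2⟩ | ⟨z, h1, h2⟩
  · exact Or.inl ⟨z, h1, h2⟩
  · exact Or.inr ⟨z, X.K.tri_swap _ _ _ h1, h2⟩

theorem ext_countA (hC : ST_CMP) (H : GrH X.Y1 X.sQ X.tQ G X.NQs) :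
    oc G (ext_A X) = oc G X.NH1 + oc G X.NH1 := by
  have h1 : ext_A X = X.NH1 ∪ ext_i X '' X.NH1 := by
    rw [ext_NH1]
    ext n
    constructor
    · intro hn
      have hadj : X.D.T.Adj n.2.2.1 n.2.2.2 := ((ext_A_mem X n).1 hn).2.1.1
      rcases (X.D.adj_iff _ _).1 hadj with h | h
      · exact Or.inl ⟨hn, h⟩
      · exact Or.inr ⟨ext_i X n, ⟨ext_A_i X hC hn, h⟩, rfl⟩
    · rintro (h | ⟨m, h, rfl⟩)
      · exact h.1
      · exact ext_A_i X hC h.1
  have fA := ext_finA X H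
  have hsub : X.NH1 ⊆ ext_A X := by
    rw [ext_NH1]
    exact fun n hn => hn.1
  have fN := ext_finorb_mono hsub fA
  rw [h1, ext_oc_union, l2_oc (ext_i X) (ext_i_inj X) (fun _ _ => rfl)]
  · intro g a ha
    rw [ext_NH1] at ha ⊢
    exact ⟨ext_A_smul X H g ha.1, X.D.arr_smul g _ _ ha.2⟩
  · rintro a ha ⟨b, hb, rfl⟩
    rw [ext_NH1] at ha hb
    exact X.D.arr_asymm _ _ ha.2 hb.2
  · exact fN
  · exact ext_finorb_image (ext_i X) (fun _ _ => rfl) _ fN

theorem ext_countT (hC : ST_CMP) (H : GrH X.Y1 X.sQ X.tQ G X.NQs) :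
    oc G (ext_A X) = oc G (ext_T X) + oc G (ext_T X) + oc G (ext_E X) := by
  have h1 : ext_A X = (ext_T X ∪ ext_i X '' ext_T X) ∪ ext_E X := by
    ext n
    constructor
    · intro hn
      by_cases h2 : ext_a X n
      · by_cases h3 : ext_a X (ext_i X n)
        · exact Or.inr ⟨hn, h2, h3⟩
        · exact Or.inl (Or.inr ⟨ext_i X n, ⟨ext_A_i X hC hn, h3⟩, rfl⟩)
      · exact Or.inl (Or.inl ⟨hn, h2⟩)
    · rintro ((h | ⟨m, h, rfl⟩) | h)
      · exact h.1
      · exact ext_A_i X hC h.1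
      · exact h.1
  have fA := ext_finA X H
  have fT : FinOrb G (ext_T X) := ext_finorb_mono (fun n hn => hn.1) fA
  have fE : FinOrb G (ext_E X) := ext_finorb_mono (fun n hn => hn.1) fA
  have fT' := ext_finorb_image (ext_i X) (fun _ _ => rfl) _ fT
  have fU : FinOrb G (ext_T X ∪ ext_i X '' ext_T X) := by
    unfold FinOrb
    rw [Set.image_union]
    exact Set.Finite.union fT fT'
  rw [h1, ext_oc_union, ext_oc_union, l2_oc (ext_i X) (ext_i_inj X) (fun _ _ => rfl)]
  · exact fun g a ha => ext_T_smul X H g ha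
  · rintro a ha ⟨b, hb, rfl⟩
    rcases ext_A_or X hC ha.1 with h | h
    · exact ha.2 h
    · exact hb.2 h
  · exact fT
  · exact fT'
  · rintro g a (ha | ⟨b, hb, rfl⟩)
    · exact Or.inl (ext_T_smul X H g ha)
    · exact Or.inr ⟨g • b, ext_T_smul X H g hb, rfl⟩
  · rintro a (ha | ⟨b, hb, rfl⟩) hE
    · exact ha.2 hE.2.1
    · exact hb.2 hE.2.2
  · exact fU
  · exact fE

theorem ext_finC (H : GrH X.Y1 X.sQ X.tQ G X.NQs) : FinOrb G (ext_C X) := by
  have h1 : (fun C : Set X.NP => orbit G C) '' ext_C X ⊆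
      (fun O : Set X.NP => (fun p => compR X.Y1 X.sQ X.tQ p) '' O) ''
        ((fun p : X.NP => orbit G p) '' X.NQs) := by
    rintro _ ⟨_, ⟨p, hp, -, rfl⟩, rfl⟩
    refine ⟨orbit G p, ⟨p, hp, rfl⟩, ?_⟩
    ext C
    constructor
    · rintro ⟨_, ⟨g, rfl⟩, rfl⟩
      exact ⟨g, (ext_comp_smul H g p).symm⟩
    · rintro ⟨g, rfl⟩
      exact ⟨g • p, ⟨g, rfl⟩, ext_comp_smul H g p⟩
  exact Set.Finite.subset (Set.Finite.image _ H.finX) h1

theorem ext_cR_le (hC : ST_CMP) (H : GrH X.Y1 X.sQ X.tQ G X.NQs) :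
    cR X.Y1 X.sQ X.tQ G X.NQs ≤ oc G (ext_T X) + oc G (ext_F X) := by
  have fA := ext_finA X H
  have fT : FinOrb G (ext_T X) := ext_finorb_mono (fun n hn => hn.1) fA
  have fC := ext_finC X H
  have fF : FinOrb G (ext_F X) := ext_finorb_mono (fun n hn => hn.1) fC
  have hsg : ∀ (g : G) (n : X.V × X.V × X.U × X.U),
      ({Sum.inl (g • n)} : Set X.NP) = g • ({Sum.inl n} : Set X.NP) := by
    intro g n
    rw [Set.smul_set_singleton]
    rfl
  have h1 : ext_C X ⊆ ((fun n => ({Sum.inl n} : Set X.NP)) '' ext_T X) ∪ ext_F X := by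
    intro C hCm
    by_cases h : ∀ n ∈ ext_T X, C ≠ {Sum.inl n}
    · exact Or.inr ⟨hCm, h⟩
    · push Not at h
      obtain ⟨n, hn, h⟩ := h
      exact Or.inl ⟨n, hn, h.symm⟩
  have fI := ext_finorb_image (fun n => ({Sum.inl n} : Set X.NP)) hsg _ fT
  have fU : FinOrb G (((fun n => ({Sum.inl n} : Set X.NP)) '' ext_T X) ∪ ext_F X) := by
    unfold FinOrb
    rw [Set.image_union]
    exact Set.Finite.union fI fF
  calc cR X.Y1 X.sQ X.tQ G X.NQs = oc G (ext_C X) := rfl
    _ ≤ oc G (((fun n => ({Sum.inl n} : Set X.NP)) '' ext_T X) ∪ ext_F X) := ext_oc_mono h1 fU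
    _ ≤ oc G ((fun n => ({Sum.inl n} : Set X.NP)) '' ext_T X) + oc G (ext_F X) := by
      unfold oc
      rw [Set.image_union]
      exact Set.ncard_union_le _ _
    _ ≤ oc G (ext_T X) + oc G (ext_F X) := by
      have := ext_oc_image (fun n => ({Sum.inl n} : Set X.NP)) hsg _ fT
      omega

theorem ext_hle (hS : ST_SPL) (hC : ST_CMP) (H : GrH X.Y1 X.sQ X.tQ G X.NQs) (hO : Opt X.K) :
    oc G (ext_E X) ≤ 2 * oc G (ext_F X) := by
  have h1 := hS G X hO
  have h2 := ext_countA X hC H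
  have h3 := ext_countT X hC H
  have h4 := ext_cR_le X hC H
  omega

/-! ### the three kinds of components -/

/-- the exits of a component -/
def ext_R (n : X.V × X.V × X.U × X.U) (C : Set X.NP) : Prop := (Sum.inl n : X.NP) ∈ C

/-- a first step -/
theorem ext_first {α : Type} {r : α → α → Prop} {a b : α} (h : Relation.ReflTransGen r a b)
    (hne : a ≠ b) : ∃ c, r a c := by
  rcases Relation.ReflTransGen.cases_head h with h | ⟨c, h, _⟩
  · exact absurd h hne
  · exact ⟨c, h⟩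

theorem ext_Ax2_adj {v : X.V} {u w : X.U} (h : Ax2 X.P v u w) : X.D.T.Adj u w := by
  rcases h with h | h
  · rcases (X.P.fN v).1 u with h1 | h1
    · exact absurd h1 h.2.2
    · rw [h.1] at h1
      exact h1
  · rcases (X.P.fN v).1 w with h1 | h1
    · exact absurd h1 h.2.2
    · rw [h.1] at h1
      exact h1.symm

theorem ext_FT_symm {v : X.V} {u w : X.U} (h : FT X.D X.K v u w) : FT X.D X.K v w u :=
  fun g h1 h2 h3 => h g h1 h3 h2

theorem ext_IsCl_symm {v : X.V} {u w : X.U} (h : X.IsCl v u w) : X.IsCl v w u :=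
  ⟨h.1, h.2.1.symm, ext_FT_symm X h.2.2⟩

theorem ext_exQ_symm (v : X.V) (u w : X.U) : X.exQ v u w = X.exQ v w u := by
  ext p
  constructor
  · rintro ⟨h1, h2, h3⟩
    exact ⟨h1, h2, h3.symm⟩
  · rintro ⟨h1, h2, h3⟩
    exact ⟨h1, h2, h3.symm⟩

theorem ext_inr_mem {v : X.V} {u w : X.U} (ha : X.D.arr u w) (h : X.IsCl v u w) :
    (Sum.inr (cl X.D X.K v, u, w) : X.NP) ∈ X.NQs := ⟨ha, v, rfl, h.1, h.2.1, h.2.2⟩

/-- cluster components -/
theorem ext_cl (hU : ST_CLU) (hC : ST_CMP) (H : GrH X.Y1 X.sQ X.tQ G X.NQs) {v : X.V} {u w : X.U}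
    (ha : X.D.arr u w) (h : X.IsCl v u w) :
    compR X.Y1 X.sQ X.tQ (Sum.inr (cl X.D X.K v, u, w)) ∈ ext_F X ∧
    {n | n ∈ ext_E X ∧ ext_R X n (compR X.Y1 X.sQ X.tQ (Sum.inr (cl X.D X.K v, u, w)))}.ncard =
      (X.exQ v u w).ncard := by
  classical
  obtain ⟨hgood, hdesc⟩ := (hC G X).2.1 v u w ha h
  have hmem := ext_inr_mem X ha h
  have hadj : X.D.T.Adj u w := ext_Ax2_adj X h.2.1
  have huw : u ≠ w := hadj.ne
  have hself : (Sum.inr (cl X.D X.K v, u, w) : X.NP) ∈
      compR X.Y1 X.sQ X.tQ (Sum.inr (cl X.D X.K v, u, w)) := Relation.ReflTransGen.refl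
  refine ⟨⟨⟨_, hmem, hgood, rfl⟩, ?_⟩, ?_⟩
  · intro n _ hn
    rw [hn] at hself
    exact absurd hself (by simp)
  · let f : X.V × X.V → X.V × X.V × X.U × X.U := fun p =>
      if X.P.N p.1 u = w then (p.1, p.2, w, u) else (p.1, p.2, u, w)
    have hf : Function.Injective f := by
      rintro ⟨a, b⟩ ⟨a', b'⟩ hab
      simp only [f] at hab
      have e1 : a = a' := by
        have := congrArg Prod.fst hab
        split_ifs at this <;> exact this
      have e2 : b = b' := by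
        have := congrArg (fun q => q.2.1) hab
        split_ifs at this <;> exact this
      rw [e1, e2]
    rw [← Set.ncard_image_of_injective _ hf]
    congr 1
    ext n
    constructor
    · rintro ⟨hE, hR⟩
      have hR' : (Sum.inl n : X.NP) ∈ compR X.Y1 X.sQ X.tQ (Sum.inr (cl X.D X.K v, u, w)) := hR
      rw [hdesc] at hR'
      rcases hR' with hR' | ⟨v', y, h1, h2, -, -, ⟨h3, h4, h5⟩ | ⟨h3, h4, h5⟩⟩
      · exact absurd hR' (by simp)
      · have h5' : n = (v', y, w, u) := Sum.inl_injective h5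
        subst h5'
        obtain ⟨z, hz1, hz2⟩ := hE.2.2
        refine ⟨(v', y), ⟨h1, h2, Or.inl ⟨h3.1, h4, z, X.K.tri_swap _ _ _ hz1, ?_⟩⟩, ?_⟩
        · exact (ext_fld X (X.P.fN z) hadj).1 hz2
        · simp only [f]
          rw [if_pos h3.1]
      · have h5' : n = (v', y, u, w) := Sum.inl_injective h5
        subst h5'
        obtain ⟨z, hz1, hz2⟩ := hE.2.2
        refine ⟨(v', y), ⟨h1, h2, Or.inr ⟨h3.1, h4, z, X.K.tri_swap _ _ _ hz1, ?_⟩⟩, ?_⟩
        · exact (ext_fld X (X.P.fN z) hadj.symm).1 hz2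
        · simp only [f]
          rw [if_neg ((ext_fld X (X.P.fN v') hadj.symm).1 h3.1)]
    · rintro ⟨⟨v', y⟩, ⟨h1, h2, h3⟩, rfl⟩
      obtain ⟨hu1, -, hu3, -, -, -⟩ := hU G X.D X.K X.P X.nd v v' h.1 h1
      rcases h3 with ⟨h4, h5, z, h6, h7⟩ | ⟨h4, h5, z, h6, h7⟩
      · have hAx : Ax X.P v' u w := by
          refine ⟨h4, ?_, fun h8 => huw (h8.symm.trans h4)⟩
          rcases hu3 with ⟨e1, e2⟩ | ⟨e1, e2⟩
          · rw [e2]
            rcases h.2.1 with h8 | h8
            · exact h8.2.1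
            · rw [e1] at h4
              exact absurd h8.1 ((ext_fld X (X.P.fN v) hadj).1 h4)
          · rw [e2]
            rcases h.2.1 with h8 | h8
            · rw [e1] at h4
              exact absurd h8.2.1 ((ext_fld X (X.P.fM v) hadj).1 h4)
            · exact h8.1
        have hh := (hC G X).2.2.2.2 v' y u w hu1 hAx h5 h2 ⟨z, h6, h7⟩
        have hfn : f (v', y) = (v', y, w, u) := by
          simp only [f]
          rw [if_pos h4]
        rw [hfn]
        have hin : (Sum.inl (v', y, w, u) : X.NP) ∈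
            compR X.Y1 X.sQ X.tQ (Sum.inr (cl X.D X.K v, u, w)) := by
          rw [hdesc]
          exact Or.inr ⟨v', y, h1, h2, hh.1, hh.2, Or.inl ⟨hAx, h5, rfl⟩⟩
        refine ⟨⟨ext_comp_sub H hmem hin, ?_, ?_⟩, hin⟩
        · obtain ⟨-, -, hinf⟩ := h5
          obtain ⟨y', hy', hne⟩ := hinf.exists_notMem_finite (Set.finite_singleton y)
          obtain ⟨q, hq⟩ := ext_first (show Relation.ReflTransGen _ y y' from hy')
            (fun e => hne (by rw [e]; exact Set.mem_singleton _))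
          exact ⟨q, hq.1, hq.2.2⟩
        · exact ⟨z, X.K.tri_swap _ _ _ h6, (ext_fld X (X.P.fN z) hadj).2 h7⟩
      · have hAx : Ax X.P v' w u := by
          refine ⟨h4, ?_, fun h8 => huw (h4.symm.trans h8)⟩
          rcases hu3 with ⟨e1, e2⟩ | ⟨e1, e2⟩
          · rw [e2]
            rcases h.2.1 with h8 | h8
            · rw [e1] at h4
              exact absurd h8.1 ((ext_fld X (X.P.fN v) hadj.symm).1 h4)
            · exact h8.2.1
          · rw [e2]
            rcases h.2.1 with h8 | h8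
            · exact h8.1
            · rw [e1] at h4
              exact absurd h8.2.1 ((ext_fld X (X.P.fM v) hadj.symm).1 h4)
        have hh := (hC G X).2.2.2.2 v' y w u hu1 hAx h5 h2 ⟨z, h6, h7⟩
        have hfn : f (v', y) = (v', y, u, w) := by
          simp only [f]
          rw [if_neg ((ext_fld X (X.P.fN v') hadj.symm).1 h4)]
        rw [hfn]
        have hin : (Sum.inl (v', y, u, w) : X.NP) ∈
            compR X.Y1 X.sQ X.tQ (Sum.inr (cl X.D X.K v, u, w)) := by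
          rw [hdesc]
          exact Or.inr ⟨v', y, h1, h2, hh.2, hh.1, Or.inr ⟨hAx, h5, rfl⟩⟩
        refine ⟨⟨ext_comp_sub H hmem hin, ?_, ?_⟩, hin⟩
        · obtain ⟨-, -, hinf⟩ := h5
          obtain ⟨y', hy', hne⟩ := hinf.exists_notMem_finite (Set.finite_singleton y)
          obtain ⟨q, hq⟩ := ext_first (show Relation.ReflTransGen _ y y' from hy')
            (fun e => hne (by rw [e]; exact Set.mem_singleton _))
          exact ⟨q, hq.1, hq.2.2⟩
        · exact ⟨z, X.K.tri_swap _ _ _ h6, (ext_fld X (X.P.fN z) hadj.symm).2 h7⟩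

/-- a cluster node in the component of an honest node -/
theorem ext_alt (hC : ST_CMP) (H : GrH X.Y1 X.sQ X.tQ G X.NQs) {x y : X.V} {u w : X.U}
    (hn : (Sum.inl (x, y, u, w) : X.NP) ∈ X.NQs)
    (h1 : ¬ EllV X.D X.K x) (h2 : Ax X.P x w u) (h3 : FT X.D X.K x u w)
    (h4 : (.inr (cl X.D X.K x, u, w) : X.NP) ∈ compR X.Y1 X.sQ X.tQ (.inl (x, y, u, w)) ∨
         (.inr (cl X.D X.K x, w, u) : X.NP) ∈ compR X.Y1 X.sQ X.tQ (.inl (x, y, u, w))) :
    (∃ (v : X.V) (u' w' : X.U), X.D.arr u' w' ∧ X.IsCl v u' w' ∧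
      compR X.Y1 X.sQ X.tQ (.inl (x, y, u, w)) =
        compR X.Y1 X.sQ X.tQ (.inr (cl X.D X.K v, u', w'))) ∧ (X.LCe x y u w).Infinite := by
  have hadj : X.D.T.Adj u w := hn.2.1.1
  have huw : u ≠ w := hadj.ne
  rcases h4 with h4 | h4
  · have hm := ext_comp_sub H hn h4
    have harr : X.D.arr u w := hm.1
    have hIs : X.IsCl x u w := ⟨h1, Or.inr h2, h3⟩
    have heq := ext_comp_eq h4
    refine ⟨⟨x, u, w, harr, hIs, heq.symm⟩, ?_⟩
    have hself := ext_comp_symm h4
    rw [((hC G X).2.1 x u w harr hIs).2] at hself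
    rcases hself with h5 | ⟨v', y', -, -, -, -, ⟨-, -, h5⟩ | ⟨-, h6, h5⟩⟩
    · exact absurd h5 (by simp)
    · have h5' := Sum.inl_injective h5
      exact absurd (congrArg (fun q => q.2.2.1) h5') huw
    · have h5' := Sum.inl_injective h5
      have e1 : x = v' := congrArg Prod.fst h5'
      have e2 : y = y' := congrArg (fun q => q.2.1) h5'
      subst e1 e2
      exact h6.2.2
  · have hm := ext_comp_sub H hn h4
    have harr : X.D.arr w u := hm.1
    have hIs : X.IsCl x w u := ⟨h1, Or.inl h2, ext_FT_symm X h3⟩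
    have heq := ext_comp_eq h4
    refine ⟨⟨x, w, u, harr, hIs, heq.symm⟩, ?_⟩
    have hself := ext_comp_symm h4
    rw [((hC G X).2.1 x w u harr hIs).2] at hself
    rcases hself with h5 | ⟨v', y', -, -, -, -, ⟨-, h6, h5⟩ | ⟨-, -, h5⟩⟩
    · exact absurd h5 (by simp)
    · have h5' := Sum.inl_injective h5
      have e1 : x = v' := congrArg Prod.fst h5'
      have e2 : y = y' := congrArg (fun q => q.2.1) h5'
      subst e1 e2
      exact h6.2.2
    · have h5' := Sum.inl_injective h5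
      exact absurd (congrArg (fun q => q.2.2.1) h5') huw

/-- plain components -/
theorem ext_pl (hC : ST_CMP) (H : GrH X.Y1 X.sQ X.tQ G X.NQs) {x : X.V} {u w : X.U}
    {C : Set X.V} (h : X.IsPl x u w C) {y : X.V} (hy : y ∈ C) :
    compR X.Y1 X.sQ X.tQ (Sum.inl (x, y, u, w)) ∈ ext_F X ∧
    {n | n ∈ ext_E X ∧ ext_R X n (compR X.Y1 X.sQ X.tQ (Sum.inl (x, y, u, w)))}.ncard =
      (X.exP x u w C).ncard := by
  have h3 := (hC G X).2.2.1 x u w C h
  obtain ⟨hn, hCe, hgood⟩ := h3 y hy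
  have hadj : X.D.T.Adj u w := h.1
  have hdesc : compR X.Y1 X.sQ X.tQ (Sum.inl (x, y, u, w)) =
      {n | ∃ y' ∈ X.LCe x y u w, n = Sum.inl (x, y', u, w)} := by
    rcases (hC G X).1 x y u w hn hgood with h4 | ⟨h4, h5, h6, h7⟩
    · exact h4.2.2
    · have := (ext_alt X hC H hn h4 h5 h6 h7).2
      rw [← hCe] at this
      exact absurd h.2.2.2.1 this
  rw [← hCe] at hdesc
  obtain ⟨y1, hy1, y2, hy2, hne⟩ := h.2.2.2.2.2
  refine ⟨⟨⟨_, hn, hgood, rfl⟩, ?_⟩, ?_⟩
  · intro n _ hn'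
    rw [hdesc] at hn'
    have e1 : (Sum.inl (x, y1, u, w) : X.NP) ∈ ({Sum.inl n} : Set X.NP) := by
      rw [← hn']
      exact ⟨y1, hy1, rfl⟩
    have e2 : (Sum.inl (x, y2, u, w) : X.NP) ∈ ({Sum.inl n} : Set X.NP) := by
      rw [← hn']
      exact ⟨y2, hy2, rfl⟩
    have e3 := (Set.mem_singleton_iff.1 e1).trans (Set.mem_singleton_iff.1 e2).symm
    exact hne (congrArg (fun q => q.2.1) (Sum.inl_injective e3))
  · have hf : Function.Injective (fun y : X.V => ((x, y, u, w) : X.V × X.V × X.U × X.U)) := by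
      intro a b hab
      exact congrArg (fun q => q.2.1) hab
    rw [← Set.ncard_image_of_injective _ hf]
    congr 1
    ext n
    constructor
    · rintro ⟨hE, hR⟩
      have hR' : (Sum.inl n : X.NP) ∈ compR X.Y1 X.sQ X.tQ (Sum.inl (x, y, u, w)) := hR
      rw [hdesc] at hR'
      obtain ⟨y', hy', h5⟩ := hR'
      have h5' : n = (x, y', u, w) := Sum.inl_injective h5
      subst h5'
      obtain ⟨z, hz1, hz2⟩ := hE.2.2
      refine ⟨y', ⟨hy', z, X.K.tri_swap _ _ _ hz1, ?_⟩, rfl⟩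
      exact (ext_fld X (X.P.fN z) hadj.symm).1 hz2
    · rintro ⟨y', ⟨hy', z, hz1, hz2⟩, rfl⟩
      obtain ⟨hn', hCe', -⟩ := h3 y' hy'
      have hin : (Sum.inl (x, y', u, w) : X.NP) ∈
          compR X.Y1 X.sQ X.tQ (Sum.inl (x, y, u, w)) := by
        rw [hdesc]
        exact ⟨y', hy', rfl⟩
      refine ⟨⟨hn', ?_, ?_⟩, hin⟩
      · have : ∃ y'' ∈ C, y' ≠ y'' := by
          by_cases e : y' = y1
          · exact ⟨y2, hy2, fun e' => hne (e.symm.trans e')⟩
          · exact ⟨y1, hy1, e⟩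
        obtain ⟨y'', hy'', hne'⟩ := this
        rw [hCe'] at hy''
        obtain ⟨q, hq⟩ := ext_first (show Relation.ReflTransGen _ y' y'' from hy'') hne'
        exact ⟨q, hq.1, hq.2.2⟩
      · exact ⟨z, X.K.tri_swap _ _ _ hz1, (ext_fld X (X.P.fN z) hadj.symm).2 hz2⟩

end split

theorem st_EXT (hS : ST_SPL) (hC : ST_CMP) (hQ : ST_GRQ) (hU : ST_CLU) : ST_EXT := by
  intro G _ X hO hP2 hQ2
  have H := hQ G X
  have fA := ext_finA X H
  have fE : FinOrb G (ext_E X) := ext_finorb_mono (fun n hn => hn.1) fA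
  have fF : FinOrb G (ext_F X) := ext_finorb_mono (fun n hn => hn.1) (ext_finC X H)
  have key := ext_main (G := G) (ext_E X) (ext_F X) (ext_R X) ?_ ?_ ?_ ?_ fE fF ?_ ?_
    (ext_hle X hS hC H hO)
  · constructor
    · intro x u w C h
      obtain ⟨y, hy, -⟩ := h.2.2.2.2.2
      obtain ⟨h1, h2⟩ := ext_pl X hC H h hy
      rw [← h2]
      exact key _ h1
    · intro v u w h
      have hadj := ext_Ax2_adj X h.2.1
      rcases (X.D.adj_iff _ _).1 hadj with ha | ha
      · obtain ⟨h1, h2⟩ := ext_cl X hU hC H ha h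
        rw [← h2]
        exact key _ h1
      · obtain ⟨h1, h2⟩ := ext_cl X hU hC H ha (ext_IsCl_symm X h)
        rw [ext_exQ_symm, ← h2]
        exact key _ h1
  · intro g n C h
    exact ⟨Sum.inl n, h, rfl⟩
  · rintro g C ⟨⟨p, hp, hg, rfl⟩, hT⟩
    refine ⟨⟨g • p, H.smulX g p hp, ext_good_smul H g hg, (ext_comp_smul H g p).symm⟩, ?_⟩
    intro n hn h
    apply hT (g⁻¹ • n) (ext_T_smul X H g⁻¹ hn)
    have h1 := congrArg (fun A : Set X.NP => g⁻¹ • A) h
    simp only [inv_smul_smul] at h1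
    rw [h1, Set.smul_set_singleton]
    rfl
  · rintro n _ ⟨⟨p, hp, hg, rfl⟩, -⟩ _ ⟨⟨p', hp', hg', rfl⟩, -⟩ h h'
    have e1 := ext_comp_eq h
    have e2 := ext_comp_eq h'
    rw [← e1, ← e2]
  · rintro _ ⟨⟨p, hp, hg, rfl⟩, -⟩ g h
    exact H.triv p hp hg g h
  · rintro _ ⟨⟨p, hp, hg, rfl⟩, -⟩
    apply Set.Finite.of_finite_image (f := (Sum.inl : X.V × X.V × X.U × X.U → X.NP))
    · refine Set.Finite.subset hg.1 ?_
      rintro _ ⟨n, hn, rfl⟩
      exact hn.2
    · exact Sum.inl_injective.injOn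
  · rintro _ ⟨⟨p, hp, hg, rfl⟩, hT⟩
    rcases p with ⟨x, y, u, w⟩ | ⟨C0, u, w⟩
    · rcases (hC G X).1 x y u w hp hg with ⟨h1, h2, h3⟩ | ⟨h1, h2, h3, h4⟩
      · have hcr : Cross X.P x y u w := hp.2.1
        have hadjK : X.K.adj x y := hp.1.1
        by_cases hex : ∃ y' ∈ X.LCe x y u w, y ≠ y'
        · obtain ⟨y', hy', hne⟩ := hex
          have hself : y ∈ X.LCe x y u w := Relation.ReflTransGen.refl
          have hPl : X.IsPl x u w (X.LCe x y u w) :=
            ⟨hcr.1, hcr.2.1, ⟨y, hadjK, hcr.2.2, rfl⟩, h1, h2, y, hself, y', hy', hne⟩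
          rw [(ext_pl X hC H hPl hself).2]
          exact hP2 _ _ _ _ hPl
        · exfalso
          push Not at hex
          apply hT (x, y, u, w)
          · refine ⟨hp, ?_⟩
            rintro ⟨z, hz1, hz2⟩
            have hz : z ∈ X.LCe x y u w :=
              Relation.ReflTransGen.single ⟨hz1, hcr.2.2, hz2⟩
            have e := hex z hz
            subst e
            exact X.K.irrefl y (X.K.tri_adj _ _ _ (X.K.tri_rot _ _ _ hz1))
          · rw [h3]
            ext n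
            constructor
            · rintro ⟨y', hy', rfl⟩
              rw [← hex y' hy']
              exact Set.mem_singleton _
            · intro hn
              rw [Set.mem_singleton_iff] at hn
              exact ⟨y, Relation.ReflTransGen.refl, hn⟩
      · obtain ⟨v, u', w', ha, hIs, heq⟩ := (ext_alt X hC H hp h1 h2 h3 h4).1
        rw [heq, (ext_cl X hU hC H ha hIs).2]
        exact hQ2 _ _ _ hIs
    · obtain ⟨ha, v, rfl, h1, h2, h3⟩ := hp
      have hIs : X.IsCl v u w := ⟨h1, h2, h3⟩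
      rw [(ext_cl X hU hC H ha hIs).2]
      exact hQ2 _ _ _ hIs

end Pool.Agent.Helper93.HZ
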